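import Pool.Agent.R891.TG.Final

open scoped ENNReal

/-- The volume gap for K-semistable `ℚ`-factorial toric Fano varieties: for all `n ≥ 2`, the largest
volume of such a variety of dimension `n` which is not isomorphic to `ℙ^n` is `2 n^n`. -/
theorem Pool.Agent.Results.MP_d76efa_ag.ToricGap.result (n : ℕ) (hn : 2 ≤ n) :
    IsGreatest (Pool.Agent.R891.TG.toricVolumes n) (2 * (n : ℝ≥0∞) ^ n) :=
  Pool.Agent.R891.TG.main n hn
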